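import Pool.Agent.Helper66.HK.Stmts

/-! Entropies of the zoom. -/

namespace Pool.Agent.Helper61.HK

open Finset Pool.Agent.Helper69.RK Pool.Agent.Helper66.HK

/-- digits of the zoom -/
theorem zc_cel {m : ℕ} (l w : ℕ) (y : Fin m → ℝ) (i : Fin m) :
    cel w (fr l y) i = cel (l + w) y i - (2 : ℤ) ^ w * cel l y i := by
  unfold cel fr
  have h : (2 : ℝ) ^ w * Int.fract ((2 : ℝ) ^ l * y i) =
      (2 : ℝ) ^ (l + w) * y i - (((2 : ℤ) ^ w * ⌊(2 : ℝ) ^ l * y i⌋ : ℤ) : ℝ) := by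
    unfold Int.fract
    push_cast
    rw [pow_add]
    ring
  rw [h, Int.floor_sub_intCast]

/-- coarser cells are functions of finer cells -/
theorem zc_coarse {m : ℕ} (k n : ℕ) (h : k ≤ n) (y y' : Fin m → ℝ) (hy : cel n y = cel n y') :
    cel k y = cel k y' := by
  funext i
  have hi : ⌊(2 : ℝ) ^ n * y i⌋ = ⌊(2 : ℝ) ^ n * y' i⌋ := congrFun hy i
  have key : ∀ z : ℝ, ⌊(2 : ℝ) ^ k * z⌋ = ⌊(2 : ℝ) ^ n * z⌋ / ((2 ^ (n - k) : ℕ) : ℤ) := by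
    intro z
    rw [← Int.floor_div_natCast]
    congr 1
    have : (2 : ℝ) ^ n = 2 ^ k * 2 ^ (n - k) := by rw [← pow_add]; congr 1; omega
    rw [this]
    push_cast
    field_simp
  show ⌊(2 : ℝ) ^ k * y i⌋ = ⌊(2 : ℝ) ^ k * y' i⌋
  rw [key, key, hi]

/-- equality of conditional entropies for equivalent conditions -/
theorem zc_cond (h2 : ST_E2) {Ω α γ γ' : Type} [Fintype Ω] (μ : Ω → ℝ) (hμ : ∀ ω, 0 ≤ μ ω) (f : Ω → α)
    (g : Ω → γ) (g' : Ω → γ') (h : ∀ ω ω', g ω = g ω' ↔ g' ω = g' ω') : CH μ f g = CH μ f g' := by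
  apply le_antisymm
  · exact h2.2.1 Ω α γ' γ μ f g' g hμ (fun ω ω' _ _ hg => (h ω ω').1 hg)
  · exact h2.2.1 Ω α γ γ' μ f g g' hμ (fun ω ω' _ _ hg => (h ω ω').2 hg)

/-- two variables which determine each other up to an error at most one -/
theorem zc_near (h1 : ST_E1) (h2 : ST_E2) (h3 : ST_E3) {Ω κ : Type} [Fintype Ω] (m : ℕ) (μ : Ω → ℝ)
    (hμ : ∀ ω, 0 ≤ μ ω) (hm : mass μ = 1) (X X' : Ω → Fin m → ℤ) (K : Ω → κ)
    (h : ∀ ω ω', K ω = K ω' → X ω = X ω' → ∀ i, |(X' ω i : ℝ) - X' ω' i| ≤ 1) :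
    CH μ X' K ≤ CH μ X K + m := by
  have a1 : CH μ X' K ≤ CH μ (fun ω => (X ω, X' ω)) K := by
    refine h2.1 Ω _ _ κ μ _ _ K hμ ?_
    intro ω ω' _ _ hg
    have hg' : ((X ω, X' ω), K ω) = ((X ω', X' ω'), K ω') := hg
    rw [Prod.mk.injEq, Prod.mk.injEq] at hg'
    exact hg'.1.2
  have a2 := (h1 Ω (Fin m → ℤ) (Fin m → ℤ) κ μ X X' K hμ).2.1
  have a3 : CH μ X' (fun ω => (X ω, K ω)) ≤ m * Real.logb 2 (1 + 1) * mass μ := by
    refine h3.2 Ω _ m μ X' (fun ω => (X ω, K ω)) 1 hμ zero_le_one ?_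
    intro ω ω' _ _ hg
    have hg' : (X ω, K ω) = (X ω', K ω') := hg
    rw [Prod.mk.injEq] at hg'
    exact h ω ω' hg'.2 hg'.1
  have a4 : Real.logb 2 (1 + 1) = 1 := by
    rw [one_add_one_eq_two]
    exact Real.logb_self_eq_one (by norm_num)
  rw [a4, hm] at a3
  linarith

/-- differences of floors -/
theorem zc_floor (r s r' : ℝ) (A A' : ℤ) :
    (⌊r⌋ + A = ⌊r'⌋ + A' → |(((⌊r + s⌋ + A : ℤ) : ℝ)) - ((⌊r' + s⌋ + A' : ℤ) : ℝ)| ≤ 1) ∧
    (⌊r + s⌋ + A = ⌊r' + s⌋ + A' → |(((⌊r⌋ + A : ℤ) : ℝ)) - ((⌊r'⌋ + A' : ℤ) : ℝ)| ≤ 1) := by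
  have h1 := Int.le_floor_add r s
  have h2 := Int.le_floor_add_floor r s
  have h3 := Int.le_floor_add r' s
  have h4 := Int.le_floor_add_floor r' s
  constructor
  · intro h
    have h5 : (⌊r + s⌋ + A) - (⌊r' + s⌋ + A') ≤ 1 := by omega
    have h6 : -1 ≤ (⌊r + s⌋ + A) - (⌊r' + s⌋ + A') := by omega
    rw [abs_le]
    constructor
    · exact_mod_cast h6
    · exact_mod_cast h5
  · intro h
    have h5 : (⌊r⌋ + A) - (⌊r'⌋ + A') ≤ 1 := by omega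
    have h6 : -1 ≤ (⌊r⌋ + A) - (⌊r'⌋ + A') := by omega
    rw [abs_le]
    constructor
    · exact_mod_cast h6
    · exact_mod_cast h5

/-- decomposition of the scaled point -/
theorem zc_split {m : ℕ} (l w : ℕ) (t : ℝ) (a x : Fin m → ℝ) (i : Fin m) :
    (2 : ℝ) ^ (l + w) * Yt t a x i =
      (2 : ℝ) ^ w * Yt t (fr l a) (fr l x) i + (2 : ℝ) ^ w * ((cel l a i : ℝ) + t * (cel l x i : ℝ)) := by
  unfold Yt fr cel Int.fract
  rw [pow_add]
  ring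

/-- both directions for the moved points -/
theorem zc_pair (h1 : ST_E1) (h2 : ST_E2) (h3 : ST_E3) {Ω κ : Type} [Fintype Ω] (m l w : ℕ) (μ : Ω → ℝ)
    (hμ : ∀ ω, 0 ≤ μ ω) (hm : mass μ = 1) (a x : Ω → Fin m → ℝ) (t : Ω → ℝ) (A : Ω → Fin m → ℤ)
    (K : Ω → κ) (hK : ∀ ω ω', K ω = K ω' → t ω = t ω' ∧ xi l (a ω) (x ω) = xi l (a ω') (x ω')) :
    |CH μ (fun ω => Yn w (t ω) (fr l (a ω)) (fr l (x ω)) (A ω)) K -
      CH μ (fun ω => Yn (l + w) (t ω) (a ω) (x ω) (A ω)) K| ≤ m := by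
  have hs : ∀ ω ω', K ω = K ω' → ∀ i,
      (2 : ℝ) ^ w * ((cel l (a ω) i : ℝ) + t ω * (cel l (x ω) i : ℝ)) =
      (2 : ℝ) ^ w * ((cel l (a ω') i : ℝ) + t ω' * (cel l (x ω') i : ℝ)) := by
    intro ω ω' hk i
    obtain ⟨ht, hx⟩ := hK ω ω' hk
    unfold xi at hx
    rw [Prod.mk.injEq] at hx
    rw [ht, hx.1, hx.2]
  have hX : ∀ ω i, Yn w (t ω) (fr l (a ω)) (fr l (x ω)) (A ω) i =
      ⌊(2 : ℝ) ^ w * Yt (t ω) (fr l (a ω)) (fr l (x ω)) i⌋ + A ω i := fun ω i => rfl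
  have hX' : ∀ ω i, Yn (l + w) (t ω) (a ω) (x ω) (A ω) i =
      ⌊(2 : ℝ) ^ w * Yt (t ω) (fr l (a ω)) (fr l (x ω)) i +
        (2 : ℝ) ^ w * ((cel l (a ω) i : ℝ) + t ω * (cel l (x ω) i : ℝ))⌋ + A ω i := by
    intro ω i
    rw [← zc_split]
    rfl
  have c1 : CH μ (fun ω => Yn (l + w) (t ω) (a ω) (x ω) (A ω)) K ≤
      CH μ (fun ω => Yn w (t ω) (fr l (a ω)) (fr l (x ω)) (A ω)) K + m := by
    refine zc_near h1 h2 h3 m μ hμ hm _ _ K ?_
    intro ω ω' hk hx i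
    have hx' := congrFun hx i
    simp only [hX, hX'] at hx' ⊢
    rw [hs ω ω' hk i]
    exact (zc_floor _ _ _ _ _).1 hx'
  have c2 : CH μ (fun ω => Yn w (t ω) (fr l (a ω)) (fr l (x ω)) (A ω)) K ≤
      CH μ (fun ω => Yn (l + w) (t ω) (a ω) (x ω) (A ω)) K + m := by
    refine zc_near h1 h2 h3 m μ hμ hm _ _ K ?_
    intro ω ω' hk hx i
    have hx' := congrFun hx i
    simp only [hX, hX'] at hx' ⊢
    rw [hs ω ω' hk i] at hx'
    exact (zc_floor _ _ _ _ _).2 hx'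
  rw [abs_le]
  constructor <;> linarith

/-- information about a coarser variable -/
theorem zc_mi (h1 : ST_E1) (h2 : ST_E2) {Ω α α' β γ : Type} [Fintype Ω] (μ : Ω → ℝ)
    (hμ : ∀ ω, 0 ≤ μ ω) (f : Ω → α) (F : Ω → α') (h : Ω → β) (g : Ω → γ)
    (hF : ∀ ω ω', f ω = f ω' → F ω = F ω') :
    CH μ F g - CH μ F (fun ω => (h ω, g ω)) ≤ MI μ f h g := by
  unfold MI
  have key : ∀ {κ : Type} (K : Ω → κ), CH μ f K = CH μ F K + CH μ f (fun ω => (F ω, K ω)) := by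
    intro κ K
    rw [← (h1 Ω α' α κ μ F f K hμ).2.1]
    apply le_antisymm
    · refine h2.1 Ω _ _ κ μ _ _ K hμ ?_
      intro ω ω' _ _ hg
      have hg' : ((F ω, f ω), K ω) = ((F ω', f ω'), K ω') := hg
      rw [Prod.mk.injEq, Prod.mk.injEq] at hg'
      exact hg'.1.2
    · refine h2.1 Ω _ _ κ μ _ _ K hμ ?_
      intro ω ω' _ _ hg
      have hg' : (f ω, K ω) = (f ω', K ω') := hg
      rw [Prod.mk.injEq] at hg'
      exact Prod.ext (hF ω ω' hg'.1) hg'.1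
  rw [key g, key (fun ω => (h ω, g ω))]
  have e1 : CH μ f (fun ω => (F ω, (h ω, g ω))) = CH μ f (fun ω => (h ω, (F ω, g ω))) := by
    refine zc_cond h2 μ hμ f _ _ ?_
    intro ω ω'
    simp only [Prod.mk.injEq]
    tauto
  have e2 := (h1 Ω α β (α' × γ) μ f h (fun ω => (F ω, g ω)) hμ).2.2
  rw [e1]
  linarith

theorem st_ZC (h1 : ST_E1) (h2 : ST_E2) (h3 : ST_E3) : ST_ZC := by
  intro m l w Ω ζ θ _ μ Z Θ a x t A hμ hm
  refine ⟨?_, ?_, ?_, ?_⟩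
  · have hd : ∀ ω ω', (xi l (a ω) (x ω), Z ω) = (xi l (a ω') (x ω'), Z ω') →
        (cel w (fr l (x ω)) = cel w (fr l (x ω')) ↔ cel (l + w) (x ω) = cel (l + w) (x ω')) := by
      intro ω ω' hk
      have hx : cel l (x ω) = cel l (x ω') := by
        rw [Prod.mk.injEq] at hk
        exact (Prod.mk.inj hk.1).2
      constructor
      · intro h
        funext i
        have := congrFun h i
        rw [zc_cel, zc_cel, hx] at this
        omega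
      · intro h
        funext i
        rw [zc_cel, zc_cel, hx, h]
    apply le_antisymm
    · refine h2.1 Ω _ _ _ μ _ _ _ hμ ?_
      intro ω ω' _ _ hg
      have hg' : (cel (l + w) (x ω), (xi l (a ω) (x ω), Z ω)) =
        (cel (l + w) (x ω'), (xi l (a ω') (x ω'), Z ω')) := hg
      rw [Prod.mk.injEq] at hg'
      exact (hd ω ω' hg'.2).2 hg'.1
    · refine h2.1 Ω _ _ _ μ _ _ _ hμ ?_
      intro ω ω' _ _ hg
      have hg' : (cel w (fr l (x ω)), (xi l (a ω) (x ω), Z ω)) =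
        (cel w (fr l (x ω')), (xi l (a ω') (x ω'), Z ω')) := hg
      rw [Prod.mk.injEq] at hg'
      exact (hd ω ω' hg'.2).1 hg'.1
  · intro n hn
    have e1 := zc_mi h1 h2 μ hμ (fun ω => cel n (x ω)) (fun ω => cel (l + w) (x ω))
      (fun ω => cel l (a ω)) (fun ω => (cel l (x ω), Z ω))
      (fun ω ω' h => zc_coarse (l + w) n hn _ _ h)
    have e2 : CH μ (fun ω => cel (l + w) (x ω)) (fun ω => (cel l (a ω), (cel l (x ω), Z ω))) =
        CH μ (fun ω => cel (l + w) (x ω)) (fun ω => (xi l (a ω) (x ω), Z ω)) := by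
      refine zc_cond h2 μ hμ _ _ _ ?_
      intro ω ω'
      simp only [xi, Prod.mk.injEq]
      tauto
    rw [e2] at e1
    linarith
  · refine zc_pair h1 h2 h3 m l w μ hμ hm a x t A _ ?_
    intro ω ω' hk
    have hk' : (Θ ω, (t ω, (xi l (a ω) (x ω), Z ω))) = (Θ ω', (t ω', (xi l (a ω') (x ω'), Z ω'))) := hk
    simp only [Prod.mk.injEq] at hk'
    exact ⟨hk'.2.1, hk'.2.2.1⟩
  · have e1 := zc_pair h1 h2 h3 m l w μ hμ hm a x t (fun _ => 0)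
      (fun ω => (t ω, xi l (a ω) (x ω), Z ω)) (by
        intro ω ω' hk
        have hk' : (t ω, (xi l (a ω) (x ω), Z ω)) = (t ω', (xi l (a ω') (x ω'), Z ω')) := hk
        simp only [Prod.mk.injEq] at hk'
        exact ⟨hk'.1, hk'.2.1⟩)
    simp only [Yn, add_zero] at e1
    exact e1

end Pool.Agent.Helper61.HK
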